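import Pool.Agent.Helper46.NU.Goals1

/-!
# Packet EHOM: homomorphism properties of the representation of the algebra
-/

open MeasureTheory Filter Topology Set
open scoped ENNReal

noncomputable section

namespace NU.PkEHOM

open NU

theorem nul_mono {S : Sys} {K K' : Set (Pt S)} (h : K ⊆ K') (hK : Nul S K') : Nul S K := by
  unfold Nul at *
  filter_upwards [hK] with φ hφ
  exact measure_mono_null (fun ω hω => h hω) hφ

theorem nul_iUnion {S : Sys} {ι : Type} [Countable ι] {K : ι → Set (Pt S)}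
    (h : ∀ i, Nul S (K i)) : Nul S (⋃ i, K i) := by
  unfold Nul at *
  have h2 := eventually_countable_forall.2 h
  filter_upwards [h2] with φ hφ
  have h3 : {ω | zz S φ ω ∈ ⋃ i, K i} = ⋃ i, {ω | zz S φ ω ∈ K i} := by
    ext ω; simp
  unfold pr
  rw [h3]
  exact measure_iUnion_null hφ

theorem nul_empty {S : Sys} : Nul S (∅ : Set (Pt S)) := by
  unfold Nul
  filter_upwards with φ
  unfold pr
  simp

theorem not_nul_univ (bai : G_BAI) (S : Sys) : ¬ Nul S (Set.univ : Set (Pt S)) := by
  intro h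
  have : BaireSpace (Ph S) := bai (S.C × ℕ) (CF S)
  have : Nonempty (Ph S) := ⟨fun _ => ⟨fun _ => true, ∅, fun _ _ _ => rfl⟩⟩
  have hd := dense_of_mem_residual h
  obtain ⟨φ, hφ⟩ := hd.nonempty
  have h1 : pr S φ Set.univ = 0 := hφ
  unfold pr at h1
  simp at h1

theorem nul_union {S : Sys} {K K' : Set (Pt S)} (h : Nul S K) (h' : Nul S K') :
    Nul S (K ∪ K') := by
  have := nul_iUnion (S := S) (ι := Bool) (K := fun b => if b then K else K')
    (by intro b; cases b <;> simpa)
  refine nul_mono ?_ this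
  intro z hz
  rcases hz with hz | hz
  · exact Set.mem_iUnion.2 ⟨true, by simpa using hz⟩
  · exact Set.mem_iUnion.2 ⟨false, by simpa using hz⟩

theorem ehom (bai : G_BAI) : G_EHOM := by
  intro S L _ e he
  have mono : ∀ K K', MeasurableSet K → MeasurableSet K' → K ⊆ K' → e K ≤ e K' := by
    intro K K' hK hK' h
    rw [he.le K K' hK hK', Set.diff_eq_empty.2 h]
    exact nul_empty
  have htop : e Set.univ = ⊤ := by
    obtain ⟨K, hK, hb⟩ := he.surj ⊤
    refine top_le_iff.1 ?_
    rw [← hb]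
    exact mono _ _ hK MeasurableSet.univ (Set.subset_univ _)
  have hbot : e ∅ = ⊥ := by
    obtain ⟨K, hK, hb⟩ := he.surj ⊥
    refine le_bot_iff.1 ?_
    rw [← hb]
    exact mono _ _ MeasurableSet.empty hK (Set.empty_subset _)
  have hbn : ∀ K, MeasurableSet K → (e K = ⊥ ↔ Nul S K) := by
    intro K hK
    rw [← le_bot_iff, ← hbot, he.le K ∅ hK MeasurableSet.empty, Set.diff_empty]
  have hne : (⊤ : L) ≠ ⊥ := by
    intro h
    rw [← htop] at h
    exact not_nul_univ bai S ((hbn _ MeasurableSet.univ).1 h)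
  have hU : ∀ (ι : Type) [Countable ι] (K : ι → Set (Pt S)), (∀ i, MeasurableSet (K i)) →
      e (⋃ i, K i) = ⨆ i, e (K i) := by
    intro ι _ K hK
    have hm : MeasurableSet (⋃ i, K i) := MeasurableSet.iUnion hK
    apply le_antisymm
    · obtain ⟨K', hK', hb⟩ := he.surj (⨆ i, e (K i))
      rw [← hb, he.le _ _ hm hK', Set.iUnion_diff]
      refine nul_iUnion fun i => ?_
      rw [← he.le _ _ (hK i) hK', hb]
      exact le_iSup (fun i => e (K i)) i
    · exact iSup_le fun i => mono _ _ (hK i) hm (Set.subset_iUnion K i)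
  have hI : ∀ (ι : Type) [Countable ι] (K : ι → Set (Pt S)), (∀ i, MeasurableSet (K i)) →
      e (⋂ i, K i) = ⨅ i, e (K i) := by
    intro ι _ K hK
    have hm : MeasurableSet (⋂ i, K i) := MeasurableSet.iInter hK
    apply le_antisymm
    · exact le_iInf fun i => mono _ _ hm (hK i) (Set.iInter_subset K i)
    · obtain ⟨K', hK', hb⟩ := he.surj (⨅ i, e (K i))
      rw [← hb, he.le _ _ hK' hm, Set.diff_iInter]
      refine nul_iUnion fun i => ?_
      rw [← he.le _ _ hK' (hK i), hb]
      exact iInf_le (fun i => e (K i)) i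
  have h2U : ∀ K K', MeasurableSet K → MeasurableSet K' → e (K ∪ K') = e K ⊔ e K' := by
    intro K K' hK hK'
    have := hU Bool (fun b => cond b K K') (by intro b; cases b <;> simpa)
    rw [Set.union_eq_iUnion, this, iSup_bool_eq]
    rfl
  have h2I : ∀ K K', MeasurableSet K → MeasurableSet K' → e (K ∩ K') = e K ⊓ e K' := by
    intro K K' hK hK'
    have := hI Bool (fun b => cond b K K') (by intro b; cases b <;> simpa)
    rw [Set.inter_eq_iInter, this, iInf_bool_eq]
    rfl
  have hC : ∀ K, MeasurableSet K → e Kᶜ = (e K)ᶜ := by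
    intro K hK
    symm
    apply IsCompl.compl_eq
    rw [isCompl_iff, disjoint_iff, codisjoint_iff, ← h2I _ _ hK hK.compl, ← h2U _ _ hK hK.compl,
      Set.inter_compl_self, Set.union_compl_self]
    exact ⟨hbot, htop⟩
  refine ⟨htop, hbot, hne, hC, fun K K' hK hK' => ⟨h2I K K' hK hK', h2U K K' hK hK'⟩,
    fun ι _ K hK => ⟨hU ι K hK, hI ι K hK⟩, fun K hK => ⟨hbn K hK, ?_⟩⟩
  rw [← hbn _ hK.compl, hC K hK, compl_eq_bot]

end NU.PkEHOM
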